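import Pool.Agent.Q199.BB.Stm

/-!
# Project BB of helper199: finite Fourier analysis on the windows
-/

set_option autoImplicit false

namespace Pool.Agent.Q195.BB

open Filter Topology Pool.Agent.Q199.BB

/-- dot product -/
def dot {n : ℕ} (a w : Fin n → ZMod 7) : ZMod 7 := ∑ i, a i * w i

/-- Fourier coefficient -/
noncomputable def ft {n : ℕ} (F : (Fin n → ZMod 7) → ℝ) (a : Fin n → ZMod 7) : ℂ :=
  ((7 : ℂ) ^ n)⁻¹ * ∑ w, (F w : ℂ) * (ZMod.stdAddChar (dot a w) : ℂ)

theorem pr_emb (n : ℕ) (a : ℕ → ZMod 7) (w : Fin n → ZMod 7) :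
    pr a (emb n w) = dot (fun i : Fin n => a i) w := by
  unfold pr emb dot
  rw [map_sum]
  apply Finset.sum_congr rfl
  intro i _
  simp

theorem loc_eq (n : ℕ) (a : ℕ → ZMod 7) (f : G → ℝ) (y : G) :
    loc n a f y = ‖ft (fun w => f (y + emb n w)) (fun i : Fin n => a i)‖ ^ 2 := by
  have h0 : ‖(ZMod.stdAddChar (pr a y) : ℂ)‖ = 1 := AddChar.norm_apply _ _
  have h1 : ‖ft (fun w => f (y + emb n w)) (fun i : Fin n => a i)‖ =
      ‖(ZMod.stdAddChar (pr a y) : ℂ) * ft (fun w => f (y + emb n w)) (fun i : Fin n => a i)‖ := by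
    rw [norm_mul, h0, one_mul]
  rw [h1]
  have h2 : (ZMod.stdAddChar (pr a y) : ℂ) * ft (fun w => f (y + emb n w)) (fun i : Fin n => a i) =
      ⟨avg n (fun x => f x * cs a x) y, avg n (fun x => f x * sn a x) y⟩ := by
    have h3 : (ZMod.stdAddChar (pr a y) : ℂ) * ft (fun w => f (y + emb n w)) (fun i : Fin n => a i) =
        ((((7 : ℝ) ^ n)⁻¹ : ℝ) : ℂ) * ∑ w : Fin n → ZMod 7, ((f (y + emb n w) : ℝ) : ℂ) *
          (ZMod.stdAddChar (pr a (y + emb n w)) : ℂ) := by
      unfold ft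
      push_cast
      rw [mul_left_comm, Finset.mul_sum]
      congr 1
      apply Finset.sum_congr rfl
      intro w _
      rw [map_add, pr_emb, AddChar.map_add_eq_mul]
      ring
    rw [h3]
    apply Complex.ext
    · rw [Complex.re_ofReal_mul, Complex.re_sum]
      unfold avg cs
      congr 1
      apply Finset.sum_congr rfl
      intro w _
      rw [Complex.re_ofReal_mul]
    · rw [Complex.im_ofReal_mul, Complex.im_sum]
      unfold avg sn
      congr 1
      apply Finset.sum_congr rfl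
      intro w _
      rw [Complex.im_ofReal_mul]
  rw [h2, Complex.sq_norm, Complex.normSq_apply]
  unfold loc
  ring

theorem tDep : SDep := by
  intro n a a' h hh
  funext y
  rw [loc_eq, loc_eq]
  have : (fun i : Fin n => a i) = fun i : Fin n => a' i := funext fun i => hh i i.2
  rw [this]

theorem char_sum {ι : Type*} (s : Finset ι) (f : ι → ZMod 7) :
    (ZMod.stdAddChar (∑ i ∈ s, f i) : ℂ) = ∏ i ∈ s, (ZMod.stdAddChar (f i) : ℂ) := by
  classical
  induction s using Finset.induction_on with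
  | empty => simp
  | insert a s ha ih => rw [Finset.sum_insert ha, Finset.prod_insert ha, AddChar.map_add_eq_mul, ih]

/-- orthogonality -/
theorem orth {n : ℕ} (u : Fin n → ZMod 7) :
    ∑ a : Fin n → ZMod 7, (ZMod.stdAddChar (dot a u) : ℂ) = if u = 0 then (7 : ℂ) ^ n else 0 := by
  have h1 : ∀ a : Fin n → ZMod 7, (ZMod.stdAddChar (dot a u) : ℂ) = ∏ i, (ZMod.stdAddChar (a i * u i) : ℂ) := by
    intro a
    unfold dot
    rw [char_sum]
  have h2 : ∑ a : Fin n → ZMod 7, (ZMod.stdAddChar (dot a u) : ℂ) =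
      ∏ i, ∑ t : ZMod 7, (ZMod.stdAddChar (t * u i) : ℂ) := by
    rw [Finset.prod_univ_sum]
    rw [Fintype.piFinset_univ]
    exact Finset.sum_congr rfl fun a _ => h1 a
  have h3 : ∀ b : ZMod 7, ∑ t : ZMod 7, (ZMod.stdAddChar (t * b) : ℂ) = if b = 0 then (7 : ℂ) else 0 := by
    intro b
    have h4 := AddChar.sum_mulShift b (ZMod.isPrimitive_stdAddChar 7)
    rw [h4, ZMod.card]
    norm_num
  rw [h2]
  simp_rw [h3]
  by_cases hu : u = 0
  · rw [if_pos hu]
    have : ∀ i, u i = 0 := fun i => by rw [hu]; rfl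
    simp [this]
  · rw [if_neg hu]
    obtain ⟨i, hi⟩ := Function.ne_iff.mp hu
    apply Finset.prod_eq_zero (Finset.mem_univ i)
    rw [if_neg (show ¬ u i = 0 from hi)]

theorem dot_sub {n : ℕ} (a u v : Fin n → ZMod 7) : dot a (u - v) = dot a u - dot a v := by
  unfold dot
  rw [← Finset.sum_sub_distrib]
  apply Finset.sum_congr rfl
  intro i _
  rw [Pi.sub_apply]
  ring

theorem dot_add {n : ℕ} (a u v : Fin n → ZMod 7) : dot a (u + v) = dot a u + dot a v := by
  unfold dot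
  rw [← Finset.sum_add_distrib]
  apply Finset.sum_congr rfl
  intro i _
  rw [Pi.add_apply]
  ring

theorem star_char (t : ZMod 7) : (starRingEnd ℂ) (ZMod.stdAddChar t : ℂ) = (ZMod.stdAddChar (-t) : ℂ) := by
  rw [AddChar.map_neg_eq_conj]

theorem star_ft {n : ℕ} (F : (Fin n → ZMod 7) → ℝ) (a : Fin n → ZMod 7) :
    (starRingEnd ℂ) (ft F a) = ((7 : ℂ) ^ n)⁻¹ * ∑ w, (F w : ℂ) * (ZMod.stdAddChar (-dot a w) : ℂ) := by
  unfold ft
  rw [map_mul, map_inv₀, map_pow, map_ofNat, map_sum]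
  congr 1
  apply Finset.sum_congr rfl
  intro w _
  rw [map_mul, Complex.conj_ofReal, star_char]

/-- Parseval -/
theorem parseval {n : ℕ} (F : (Fin n → ZMod 7) → ℝ) :
    ∑ a, ‖ft F a‖ ^ 2 = ((7 : ℝ) ^ n)⁻¹ * ∑ w, F w ^ 2 := by
  have h7 : (7 : ℂ) ^ n ≠ 0 := pow_ne_zero _ (by norm_num)
  have h1 : ((∑ a, ‖ft F a‖ ^ 2 : ℝ) : ℂ) = (((((7 : ℝ) ^ n)⁻¹ * ∑ w, F w ^ 2 : ℝ)) : ℂ) := by
    push_cast
    have h2 : ∀ a, ((‖ft F a‖ : ℝ) : ℂ) ^ 2 = (((7 : ℂ) ^ n)⁻¹ * ((7 : ℂ) ^ n)⁻¹) *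
        ∑ w, ∑ w', (F w : ℂ) * (F w' : ℂ) * (ZMod.stdAddChar (dot a (w - w')) : ℂ) := by
      intro a
      have h3 : ((‖ft F a‖ : ℝ) : ℂ) ^ 2 = ft F a * (starRingEnd ℂ) (ft F a) := by
        rw [Complex.mul_conj, Complex.normSq_eq_norm_sq]
        push_cast
        ring
      rw [h3, star_ft]
      unfold ft
      rw [mul_mul_mul_comm, Finset.sum_mul_sum]
      congr 1
      apply Finset.sum_congr rfl
      intro w _
      apply Finset.sum_congr rfl
      intro w' _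
      rw [dot_sub, sub_eq_add_neg, AddChar.map_add_eq_mul]
      ring
    simp_rw [h2]
    rw [← Finset.mul_sum, Finset.sum_comm]
    have h4 : ∀ w, ∑ a : Fin n → ZMod 7, ∑ w', (F w : ℂ) * (F w' : ℂ) * (ZMod.stdAddChar (dot a (w - w')) : ℂ) =
        (7 : ℂ) ^ n * (F w : ℂ) ^ 2 := by
      intro w
      rw [Finset.sum_comm]
      have h5 : ∀ w', ∑ a : Fin n → ZMod 7, (F w : ℂ) * (F w' : ℂ) * (ZMod.stdAddChar (dot a (w - w')) : ℂ) =
          if w' = w then (7 : ℂ) ^ n * (F w : ℂ) ^ 2 else 0 := by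
        intro w'
        rw [← Finset.mul_sum, orth]
        by_cases hw : w' = w
        · rw [if_pos hw, if_pos (by rw [hw, sub_self]), hw]
          ring
        · rw [if_neg hw, if_neg (fun h => hw (sub_eq_zero.mp h).symm), mul_zero]
      simp_rw [h5]
      rw [Finset.sum_ite_eq' Finset.univ w]
      simp
    simp_rw [h4]
    rw [← Finset.mul_sum]
    field_simp
  exact_mod_cast h1

theorem tPars : SPars := by
  intro n f y
  have h1 : ∀ a : Fin n → ZMod 7, loc n (ex a) f y = ‖ft (fun w => f (y + emb n w)) a‖ ^ 2 := by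
    intro a
    rw [loc_eq]
    congr 3
    funext i
    unfold ex
    simp
  simp_rw [h1]
  rw [parseval]
  rfl

/-- the correlation of two functions -/
theorem ft_conv {n : ℕ} (Φ H : (Fin n → ZMod 7) → ℝ) (a : Fin n → ZMod 7) :
    ft (fun v => ((7 : ℝ) ^ n)⁻¹ * ∑ w, Φ w * H (v + w)) a = (starRingEnd ℂ) (ft Φ a) * ft H a := by
  rw [star_ft]
  unfold ft
  rw [mul_mul_mul_comm, Finset.sum_mul_sum]
  have h1 : ∑ v : Fin n → ZMod 7, ((((7 : ℝ) ^ n)⁻¹ * ∑ w, Φ w * H (v + w) : ℝ) : ℂ) *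
      (ZMod.stdAddChar (dot a v) : ℂ) = ((7 : ℂ) ^ n)⁻¹ * ∑ w, ∑ v, (Φ w : ℂ) * (H (v + w) : ℂ) *
      (ZMod.stdAddChar (dot a v) : ℂ) := by
    rw [Finset.sum_comm, Finset.mul_sum]
    apply Finset.sum_congr rfl
    intro v _
    push_cast
    rw [mul_assoc, Finset.sum_mul]
  rw [h1, ← mul_assoc]
  congr 1
  apply Finset.sum_congr rfl
  intro w _
  rw [← Equiv.sum_comp (Equiv.addRight (-w))]
  apply Finset.sum_congr rfl
  intro v _
  have e1 : (Equiv.addRight (-w)) v + w = v := by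
    show v + -w + w = v
    abel
  have e2 : dot a ((Equiv.addRight (-w)) v) = -dot a w + dot a v := by
    show dot a (v + -w) = _
    rw [← sub_eq_add_neg, dot_sub]
    ring
  rw [e1, e2, AddChar.map_add_eq_mul]
  ring

theorem emb_add (n : ℕ) (v w : Fin n → ZMod 7) : emb n (v + w) = emb n v + emb n w := by
  unfold emb
  rw [← Finset.sum_add_distrib]
  apply Finset.sum_congr rfl
  intro i _
  rw [Pi.add_apply, Finsupp.single_add]

theorem tConv : SConv := by
  intro n f h b y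
  have h1 : ∀ (g : G → ℝ) (z : G) (a : Fin n → ZMod 7),
      loc n (ex a) g z = ‖ft (fun w => g (z + emb n w)) a‖ ^ 2 := by
    intro g z a
    rw [loc_eq]
    congr 3
    funext i
    unfold ex
    simp
  simp_rw [h1]
  have h2 := parseval (fun v : Fin n → ZMod 7 => ((7 : ℝ) ^ n)⁻¹ * ∑ w : Fin n → ZMod 7,
    f (b + emb n w) * h (y + emb n (v + w)))
  rw [← h2]
  apply Finset.sum_congr rfl
  intro a _
  have h3 := ft_conv (fun w => f (b + emb n w)) (fun w => h (y + emb n w)) a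
  rw [h3, norm_mul, mul_pow, RCLike.norm_conj]

end Pool.Agent.Q195.BB
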